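import Pool.Agent.H7.HZ.Stmts

/-!
Row RFG of board hz12: the extremal graph.
-/

set_option autoImplicit false

open Finset

namespace Pool.HZ7

open Pool.Agent.H23.KT Pool.Agent.H46.KW Pool.KQ Pool.GT7 Pool.GU7

/-- the small vertex with index `t` -/
def rfgx (p r q t : ℕ) : ℕ := (p + 4) * (t / q) + (r + 1 + t % q)

theorem rfgx_mod {p r q : ℕ} (h : r + q = p + 3) (hq : 2 ≤ q) (t : ℕ) :
    rfgx p r q t % (p + 4) = r + 1 + t % q := by
  have h1 := Nat.mod_lt t (show 0 < q by omega)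
  unfold rfgx
  rw [Nat.mul_add_mod, Nat.mod_eq_of_lt (by omega)]

theorem rfgx_lt {p r q a : ℕ} (h : r + q = p + 3) (hq : 2 ≤ q) {t : ℕ} (ht : t < q * a) :
    rfgx p r q t < (p + 4) * a + (r + 1) := by
  have h1 := Nat.mod_lt t (show 0 < q by omega)
  have h2 : t / q < a := Nat.div_lt_of_lt_mul ht
  have h3 : (p + 4) * (t / q + 1) ≤ (p + 4) * a := Nat.mul_le_mul_left _ h2
  rw [mul_add, mul_one] at h3
  unfold rfgx
  omega

theorem rfgx_surj {p r q a : ℕ} (h : r + q = p + 3) (hq : 2 ≤ q) {v : ℕ}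
    (hv : v < (p + 4) * a + (r + 1)) (hm : r + 1 ≤ v % (p + 4)) :
    ∃ t < q * a, rfgx p r q t = v := by
  have h1 := Nat.mod_lt v (show 0 < p + 4 by omega)
  have h2 := Nat.div_add_mod v (p + 4)
  have h3 : v / (p + 4) < a := by
    by_contra hcon
    have : (p + 4) * a ≤ (p + 4) * (v / (p + 4)) := Nat.mul_le_mul_left _ (by omega)
    omega
  have h4 : q * (v / (p + 4) + 1) ≤ q * a := Nat.mul_le_mul_left _ h3
  rw [mul_add, mul_one] at h4
  refine ⟨q * (v / (p + 4)) + (v % (p + 4) - (r + 1)), by omega, ?_⟩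
  unfold rfgx
  have h5 : v % (p + 4) - (r + 1) < q := by omega
  rw [Nat.mul_add_div (show 0 < q by omega), Nat.mul_add_mod, Nat.div_eq_of_lt h5,
    Nat.mod_eq_of_lt h5, add_zero]
  omega

theorem rfgx_ne {p r q : ℕ} (h : r + q = p + 3) (hq : 2 ≤ q) (t : ℕ) :
    rfgx p r q t % (p + 4) ≠ rfgx p r q (t + 1) % (p + 4) := by
  rw [rfgx_mod h hq, rfgx_mod h hq]
  intro hcon
  have h1 : (t + 1) % q = t % q := by omega
  have h2 := Nat.sub_mod_eq_zero_of_mod_eq h1
  rw [Nat.add_sub_cancel_left, Nat.mod_eq_of_lt (by omega)] at h2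
  omega

/-- the first vertex of the pair `i` -/
def rfgf (p r q i : ℕ) : ℕ := rfgx p r q (2 * i)

/-- the second vertex of the pair `i` -/
def rfgg (p r q a i : ℕ) : ℕ := if 2 * i + 1 < q * a then rfgx p r q (2 * i + 1) else 0

theorem rfgf_lt {p r q a : ℕ} (h : r + q = p + 3) (hq : 2 ≤ q) {i : ℕ} (hi : 2 * i < q * a) :
    rfgf p r q i < (p + 4) * a + (r + 1) := rfgx_lt h hq hi

theorem rfgg_lt {p r q a : ℕ} (h : r + q = p + 3) (hq : 2 ≤ q) (i : ℕ) :
    rfgg p r q a i < (p + 4) * a + (r + 1) := by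
  unfold rfgg
  split_ifs with h1
  · exact rfgx_lt h hq h1
  · omega

theorem rfg_fg {p r q a : ℕ} (h : r + q = p + 3) (hq : 2 ≤ q) (i : ℕ) :
    rfgf p r q i % (p + 4) ≠ rfgg p r q a i % (p + 4) := by
  unfold rfgg rfgf
  split_ifs with h1
  · exact rfgx_ne h hq _
  · rw [rfgx_mod h hq, Nat.zero_mod]
    omega

/-- the extremal graph -/
def rfgR (p r q a : ℕ) : SimpleGraph (Fin ((p + 4) * a + (r + 1))) where
  Adj u v := u.val % (p + 4) ≠ v.val % (p + 4) ∧ ∀ i, 2 * i < q * a →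
    ¬ (u.val = rfgf p r q i ∧ v.val = rfgg p r q a i) ∧
    ¬ (v.val = rfgf p r q i ∧ u.val = rfgg p r q a i)
  symm := ⟨fun _ _ h => ⟨fun h1 => h.1 h1.symm, fun i hi => ⟨(h.2 i hi).2, (h.2 i hi).1⟩⟩⟩
  loopless := ⟨fun _ h => h.1 rfl⟩

theorem rfgR_le (p r q a : ℕ) :
    rfgR p r q a ≤ SimpleGraph.turanGraph ((p + 4) * a + (r + 1)) (p + 4) := by
  intro u v h
  exact h.1

/-- the residue classes -/
def rfgc (p r a c : ℕ) : Finset (Fin ((p + 4) * a + (r + 1))) :=
  univ.filter (fun w => w.val % (p + 4) = c)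

theorem rfgc_card (p r a c : ℕ) (hr : r ≤ p) (hc : c < p + 4) :
    (rfgc p r a c).card = a + if c < r + 1 then 1 else 0 := by
  have h1 : (rfgc p r a c).map Fin.valEmbedding =
      (range ((p + 4) * a + (r + 1))).filter (fun w => w % (p + 4) = c) := by
    ext w
    rw [mem_map, mem_filter, mem_range]
    constructor
    · rintro ⟨u, hu, rfl⟩
      unfold rfgc at hu
      rw [mem_filter] at hu
      exact ⟨u.2, hu.2⟩
    · rintro ⟨h2, h3⟩
      refine ⟨⟨w, h2⟩, ?_, rfl⟩
      unfold rfgc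
      rw [mem_filter]
      exact ⟨mem_univ _, h3⟩
  rw [← card_map Fin.valEmbedding, h1]
  have h2 := Nat.count_modEq_card ((p + 4) * a + (r + 1)) (show 0 < p + 4 by omega) c
  rw [Nat.count_eq_card_filter_range, Nat.mul_add_div (show 0 < p + 4 by omega), Nat.mul_add_mod,
    Nat.div_eq_of_lt (show r + 1 < p + 4 by omega), Nat.mod_eq_of_lt (show r + 1 < p + 4 by omega),
    Nat.mod_eq_of_lt hc, add_zero] at h2
  rw [← h2]
  congr 1
  ext w
  rw [mem_filter, mem_filter]
  unfold Nat.ModEq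
  rw [Nat.mod_eq_of_lt hc]

theorem rfgc_compl (p r a c : ℕ) (hr : r ≤ p) (hc : c < p + 4) :
    ((rfgc p r a c)ᶜ).card + (if c < r + 1 then 1 else 0) = (p + 3) * a + (r + 1) := by
  have h1 := card_compl_add_card (rfgc p r a c)
  rw [rfgc_card p r a c hr hc, Fintype.card_fin] at h1
  have h2 : (p + 4) * a = (p + 3) * a + a := by ring
  omega

theorem rfg_deg {p r q a : ℕ} (h : r + q = p + 3) (hq : 2 ≤ q) (hr : r ≤ p)
    (v : Fin ((p + 4) * a + (r + 1))) :
    ((rfgR p r q a).neighborSet v).ncard ≤ (p + 3) * a + r := by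
  have hm := Nat.mod_lt v.val (show 0 < p + 4 by omega)
  have h1 := rfgc_compl p r a (v.val % (p + 4)) hr hm
  by_cases hs : v.val % (p + 4) < r + 1
  · rw [if_pos hs] at h1
    have h2 : (rfgR p r q a).neighborSet v ⊆
        (((rfgc p r a (v.val % (p + 4)))ᶜ : Finset _) : Set (Fin ((p + 4) * a + (r + 1)))) := by
      intro w hw
      rw [mem_coe, mem_compl]
      unfold rfgc
      rw [mem_filter]
      rintro ⟨-, h3⟩
      exact hw.1 h3.symm
    have h3 := Set.ncard_le_ncard h2 (Set.toFinite _)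
    rw [Set.ncard_coe_finset] at h3
    omega
  · rw [if_neg hs] at h1
    obtain ⟨t, ht, htv⟩ := rfgx_surj h hq v.2 (by omega)
    obtain ⟨w0, hw1, hw2⟩ : ∃ w0 : Fin ((p + 4) * a + (r + 1)),
        w0.val % (p + 4) ≠ v.val % (p + 4) ∧ ¬ (rfgR p r q a).Adj v w0 := by
      rcases Nat.even_or_odd' t with ⟨i, rfl | rfl⟩
      · refine ⟨⟨rfgg p r q a i, rfgg_lt h hq i⟩, ?_, ?_⟩
        · rw [← htv]
          exact (rfg_fg h hq i).symm
        · intro hcon
          exact (hcon.2 i ht).1 ⟨htv.symm, rfl⟩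
      · refine ⟨⟨rfgf p r q i, rfgf_lt h hq (by omega)⟩, ?_, ?_⟩
        · rw [← htv]
          exact rfgx_ne h hq _
        · intro hcon
          refine (hcon.2 i (by omega)).2 ⟨rfl, ?_⟩
          unfold rfgg
          rw [if_pos ht]
          exact htv.symm
    have h2 : (rfgR p r q a).neighborSet v ⊆
        ((((rfgc p r a (v.val % (p + 4)))ᶜ).erase w0 : Finset _) :
          Set (Fin ((p + 4) * a + (r + 1)))) := by
      intro w hw
      rw [mem_coe, mem_erase, mem_compl]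
      refine ⟨?_, ?_⟩
      · rintro rfl
        exact hw2 hw
      · unfold rfgc
        rw [mem_filter]
        rintro ⟨-, h3⟩
        exact hw.1 h3.symm
    have h3 := Set.ncard_le_ncard h2 (Set.toFinite _)
    rw [Set.ncard_coe_finset, card_erase_of_mem] at h3
    · omega
    · rw [mem_compl]
      unfold rfgc
      rw [mem_filter]
      rintro ⟨-, h4⟩
      exact hw1 h4

theorem rfg_pair {p r a : ℕ} (hr : r ≤ p) (x y : Fin ((p + 4) * a + (r + 1)))
    (hxy : x.val % (p + 4) ≠ y.val % (p + 4)) :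
    {s : Finset (Fin ((p + 4) * a + (r + 1))) |
      (SimpleGraph.turanGraph ((p + 4) * a + (r + 1)) (p + 4)).IsNClique 3 s ∧
        x ∈ s ∧ y ∈ s}.ncard + (if x.val % (p + 4) < r + 1 then 1 else 0) +
      (if y.val % (p + 4) < r + 1 then 1 else 0) ≤ (p + 2) * a + (r + 1) := by
  classical
  have hx := Nat.mod_lt x.val (show 0 < p + 4 by omega)
  have hy := Nat.mod_lt y.val (show 0 < p + 4 by omega)
  have hdis : Disjoint (rfgc p r a (x.val % (p + 4))) (rfgc p r a (y.val % (p + 4))) := by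
    rw [Finset.disjoint_left]
    intro w h1 h2
    unfold rfgc at h1 h2
    rw [mem_filter] at h1 h2
    exact hxy (h1.2.symm.trans h2.2)
  have h1 := card_compl_add_card (rfgc p r a (x.val % (p + 4)) ∪ rfgc p r a (y.val % (p + 4)))
  rw [card_union_of_disjoint hdis, rfgc_card p r a _ hr hx, rfgc_card p r a _ hr hy,
    Fintype.card_fin] at h1
  have h2 : {s : Finset (Fin ((p + 4) * a + (r + 1))) |
      (SimpleGraph.turanGraph ((p + 4) * a + (r + 1)) (p + 4)).IsNClique 3 s ∧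
        x ∈ s ∧ y ∈ s} ⊆ (((rfgc p r a (x.val % (p + 4)) ∪ rfgc p r a (y.val % (p + 4)))ᶜ).image
        (fun w => ({x, y, w} : Finset _)) : Finset (Finset (Fin ((p + 4) * a + (r + 1))))) := by
    rintro s ⟨hs, hxs, hys⟩
    rw [mem_coe, mem_image]
    rw [SimpleGraph.isNClique_iff] at hs
    have hne : x ≠ y := by
      rintro rfl
      exact hxy rfl
    have h3 : ({x, y} : Finset _) ⊆ s := by
      intro w hw
      rw [mem_insert, mem_singleton] at hw
      rcases hw with rfl | rfl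
      · exact hxs
      · exact hys
    have h4 : (s \ {x, y}).card = 1 := by
      have h5 := card_sdiff_add_card_eq_card h3
      rw [card_pair hne, hs.2] at h5
      omega
    obtain ⟨w, hw⟩ := card_eq_one.mp h4
    have hws : w ∈ s \ {x, y} := by rw [hw]; exact mem_singleton_self _
    rw [mem_sdiff, mem_insert, mem_singleton, not_or] at hws
    refine ⟨w, ?_, ?_⟩
    · rw [mem_compl, mem_union]
      unfold rfgc
      rw [mem_filter, mem_filter]
      rintro (⟨-, h5⟩ | ⟨-, h5⟩)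
      · exact hs.1 (mem_coe.mpr hws.1) (mem_coe.mpr hxs) hws.2.1 h5
      · exact hs.1 (mem_coe.mpr hws.1) (mem_coe.mpr hys) hws.2.2 h5
    · rw [← sdiff_union_of_subset h3, hw]
      ext z
      simp only [mem_insert, mem_singleton, mem_union]
      tauto
  have h3 := Set.ncard_le_ncard h2 (Set.toFinite _)
  rw [Set.ncard_coe_finset] at h3
  have h4 : (((rfgc p r a (x.val % (p + 4)) ∪ rfgc p r a (y.val % (p + 4)))ᶜ).image
        (fun w => ({x, y, w} : Finset _))).card ≤
      ((rfgc p r a (x.val % (p + 4)) ∪ rfgc p r a (y.val % (p + 4)))ᶜ).card := card_image_le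
  have h5 : (p + 4) * a = (p + 2) * a + a + a := by ring
  omega

theorem rfg_ncard {α : Type} [Fintype α] [DecidableEq α] (P : α → Prop) [DecidablePred P] :
    {s : α | P s}.ncard = (univ.filter P).card := by
  rw [← Set.ncard_coe_finset]
  congr 1
  ext s
  rw [mem_coe, mem_filter]
  exact ⟨fun h => ⟨mem_univ _, h⟩, fun h => h.2⟩

theorem rfg_count {p r q a : ℕ} (h : r + q = p + 3) (hq : 2 ≤ q) (hr : r ≤ p) :
    {s : Finset (Fin ((p + 4) * a + (r + 1))) |
      (SimpleGraph.turanGraph ((p + 4) * a + (r + 1)) (p + 4)).IsNClique 3 s}.ncard ≤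
    {s : Finset (Fin ((p + 4) * a + (r + 1))) | (rfgR p r q a).IsNClique 3 s}.ncard +
      ∑ i ∈ range ((q * a + 1) / 2), (if 2 * i + 1 < q * a then (p + 2) * a + (r + 1) else
        (p + 2) * a + r) := by
  classical
  obtain ⟨B, hB⟩ : ∃ B : ℕ → Finset (Finset (Fin ((p + 4) * a + (r + 1)))), ∀ i, B i =
      univ.filter (fun s => (SimpleGraph.turanGraph ((p + 4) * a + (r + 1)) (p + 4)).IsNClique 3 s ∧
        ∃ x ∈ s, ∃ y ∈ s, x.val = rfgf p r q i ∧ y.val = rfgg p r q a i) := ⟨_, fun _ => rfl⟩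
  have hBc : ∀ i ∈ range ((q * a + 1) / 2), (B i).card ≤
      if 2 * i + 1 < q * a then (p + 2) * a + (r + 1) else (p + 2) * a + r := by
    intro i hi
    rw [mem_range] at hi
    have hi2 : 2 * i < q * a := by omega
    have h1 := rfg_pair hr (⟨rfgf p r q i, rfgf_lt h hq hi2⟩ : Fin ((p + 4) * a + (r + 1)))
      ⟨rfgg p r q a i, rfgg_lt h hq i⟩ (rfg_fg h hq i)
    have h2 : B i ⊆ univ.filter (fun s => (SimpleGraph.turanGraph ((p + 4) * a + (r + 1))
        (p + 4)).IsNClique 3 s ∧ (⟨rfgf p r q i, rfgf_lt h hq hi2⟩ : Fin _) ∈ s ∧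
        (⟨rfgg p r q a i, rfgg_lt h hq i⟩ : Fin _) ∈ s) := by
      intro s hs
      rw [hB, mem_filter] at hs
      rw [mem_filter]
      obtain ⟨-, hs1, x, hx, y, hy, hxf, hyg⟩ := hs
      refine ⟨mem_univ _, hs1, ?_, ?_⟩
      · rwa [show (⟨rfgf p r q i, rfgf_lt h hq hi2⟩ : Fin _) = x from Fin.ext hxf.symm]
      · rwa [show (⟨rfgg p r q a i, rfgg_lt h hq i⟩ : Fin _) = y from Fin.ext hyg.symm]
    have h3 := card_le_card h2
    rw [rfg_ncard] at h1
    have h4 : ¬ rfgf p r q i % (p + 4) < r + 1 := by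
      unfold rfgf
      rw [rfgx_mod h hq]
      omega
    rw [if_neg h4] at h1
    by_cases h5 : 2 * i + 1 < q * a
    · rw [if_pos h5]
      omega
    · rw [if_neg h5]
      have h6 : rfgg p r q a i % (p + 4) < r + 1 := by
        unfold rfgg
        rw [if_neg h5, Nat.zero_mod]
        omega
      rw [if_pos h6] at h1
      omega
  rw [rfg_ncard, rfg_ncard]
  have hsub : univ.filter (fun s : Finset (Fin ((p + 4) * a + (r + 1))) =>
      (SimpleGraph.turanGraph ((p + 4) * a + (r + 1)) (p + 4)).IsNClique 3 s) ⊆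
      univ.filter (fun s : Finset (Fin ((p + 4) * a + (r + 1))) =>
        (rfgR p r q a).IsNClique 3 s) ∪ (range ((q * a + 1) / 2)).biUnion B := by
    intro s hs
    rw [mem_filter] at hs
    have hs2 := hs.2
    rw [SimpleGraph.isNClique_iff] at hs2
    rw [mem_union, mem_filter, mem_biUnion]
    by_cases hc : (rfgR p r q a).IsClique (s : Set _)
    · left
      refine ⟨mem_univ _, ?_⟩
      rw [SimpleGraph.isNClique_iff]
      exact ⟨hc, hs2.2⟩
    · right
      have h1 : ∃ u ∈ s, ∃ v ∈ s, u ≠ v ∧ ¬ (rfgR p r q a).Adj u v := by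
        by_contra hcon
        push Not at hcon
        exact hc (fun u hu v hv hne => hcon u hu v hv hne)
      obtain ⟨u, hu, v, hv, hne, hna⟩ := h1
      have hT : u.val % (p + 4) ≠ v.val % (p + 4) :=
        hs2.1 (mem_coe.mpr hu) (mem_coe.mpr hv) hne
      have h2 : ∃ i, 2 * i < q * a ∧ ((u.val = rfgf p r q i ∧ v.val = rfgg p r q a i) ∨
          (v.val = rfgf p r q i ∧ u.val = rfgg p r q a i)) := by
        by_contra hcon
        push Not at hcon
        refine hna ⟨hT, fun i hi => ⟨fun hh => (hcon i hi).1 hh.1 hh.2,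
          fun hh => (hcon i hi).2 hh.1 hh.2⟩⟩
      obtain ⟨i, hi, h3⟩ := h2
      refine ⟨i, mem_range.mpr (by omega), ?_⟩
      rw [hB, mem_filter]
      refine ⟨mem_univ _, hs.2, ?_⟩
      rcases h3 with h3 | h3
      · exact ⟨u, hu, v, hv, h3.1, h3.2⟩
      · exact ⟨v, hv, u, hu, h3.1, h3.2⟩
  refine (card_le_card hsub).trans ((card_union_le _ _).trans ?_)
  exact Nat.add_le_add_left (card_biUnion_le.trans (sum_le_sum hBc)) _

theorem rfg_sum (k X : ℕ) :
    ∑ i ∈ range ((k + 1) / 2), (if 2 * i + 1 < k then X + 1 else X) =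
      if Even k then k / 2 * (X + 1) else k / 2 * (X + 1) + X := by
  rcases Nat.even_or_odd' k with ⟨K, rfl | rfl⟩
  · rw [if_pos (even_two_mul K), show (2 * K + 1) / 2 = K by omega, show 2 * K / 2 = K by omega,
      sum_congr rfl (fun i hi => if_pos (by rw [mem_range] at hi; omega)), sum_const, card_range,
      smul_eq_mul]
  · rw [if_neg (by rw [Nat.not_even_iff_odd]; exact ⟨K, rfl⟩),
      show (2 * K + 1 + 1) / 2 = K + 1 by omega, show (2 * K + 1) / 2 = K by omega, sum_range_succ,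
      if_neg (by omega),
      sum_congr rfl (fun i hi => if_pos (by rw [mem_range] at hi; omega)), sum_const, card_range,
      smul_eq_mul]

theorem rfg_aux (hEST : ESTStmt) (hTCT : TCTStmt) (p r a : ℕ) (hP : PrZ p r) (N : ℕ)
    (hN : N = (p + 4) * a + (r + 1)) : ∃ R : SimpleGraph (Fin N),
    (∀ v, (R.neighborSet v).ncard ≤ (p + 3) * a + r) ∧ R.CliqueFree (p + 5) ∧
    kx p r a ≤ ({s : Finset (Fin N) | R.IsNClique 3 s}.ncard : ℝ) := by
  subst hN
  obtain ⟨q, hq⟩ : ∃ q, r + q = p + 3 := ⟨p + 3 - r, by have := hP.rp; omega⟩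
  have hr := hP.rp
  have hq2 : 2 ≤ q := by omega
  refine ⟨rfgR p r q a, rfg_deg hq hq2 hr, ?_, ?_⟩
  · have h1 := SimpleGraph.turanGraph_cliqueFree (n := (p + 4) * a + (r + 1)) (r := p + 4)
      (by omega)
    exact h1.anti (rfgR_le p r q a)
  · have h1 := hTCT p 3 a (r + 1) (by omega)
    have h2 := rfg_count (a := a) hq hq2 hr
    rw [show (p + 2) * a + (r + 1) = ((p + 2) * a + r) + 1 by ring, rfg_sum] at h2
    have h3 := h1.trans h2
    have hpr : p + 3 - r = q := by omega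
    unfold kx Xz
    rw [hpr]
    by_cases he : Even (q * a)
    · rw [if_pos he] at h3 ⊢
      have h4 : ((TT (p + 4) 3 a (r + 1) : ℕ) : ℝ) ≤ (({s : Finset (Fin ((p + 4) * a + (r + 1))) |
        (rfgR p r q a).IsNClique 3 s}.ncard + q * a / 2 * ((p + 2) * a + r + 1) : ℕ) : ℝ) := by
        exact_mod_cast h3
      obtain ⟨K, hK⟩ := he
      have hK2 : q * a / 2 = K := by omega
      rw [hK2] at h4
      push_cast at h4
      have h5 : (q : ℝ) * a = K + K := by exact_mod_cast hK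
      rw [h5]
      nlinarith
    · rw [if_neg he] at h3 ⊢
      have h4 : ((TT (p + 4) 3 a (r + 1) : ℕ) : ℝ) ≤ (({s : Finset (Fin ((p + 4) * a + (r + 1))) |
        (rfgR p r q a).IsNClique 3 s}.ncard + (q * a / 2 * ((p + 2) * a + r + 1) +
          ((p + 2) * a + r)) : ℕ) : ℝ) := by
        exact_mod_cast h3
      rw [Nat.not_even_iff_odd] at he
      obtain ⟨K, hK⟩ := he
      have hK2 : q * a / 2 = K := by omega
      rw [hK2] at h4
      push_cast at h4
      have h5 : (q : ℝ) * a = 2 * K + 1 := by exact_mod_cast hK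
      rw [h5]
      nlinarith

theorem RFG_thm (hEST : ESTStmt) (hTCT : TCTStmt) : RFGStmt := by
  intro p r a hP _
  exact rfg_aux hEST hTCT p r a hP _ (by ring)

end Pool.HZ7
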