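import Pool.Agent.H7.HZ.Stmts

/-!
Row REF of board hz12: refinement of the parts.
-/

set_option autoImplicit false

open Finset

namespace Pool.HZ7

open Pool.Agent.H23.KT Pool.Agent.H46.KW Pool.KQ Pool.GT7 Pool.GU7

open Classical in
/-- the vertices with few missing pairs -/
noncomputable def refP {V : Type} (G : SimpleGraph V) (f : ℝ) (a : ℕ) {b : ℕ}
    (P : Fin b → Finset V) : Fin b → Finset V :=
  fun i => (P i).filter (fun y => ∀ k, k ≠ i → ((non G (P k) y).card : ℝ) ≤ f * a)

theorem refP_sub {V : Type} (G : SimpleGraph V) (f : ℝ) (a : ℕ) {b : ℕ}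
    (P : Fin b → Finset V) (i : Fin b) : refP G f a P i ⊆ P i := by
  unfold refP
  exact filter_subset _ _

theorem ref_non_mono {V : Type} (G : SimpleGraph V) {X Y : Finset V} (h : X ⊆ Y) (u : V) :
    non G X u ⊆ non G Y u := by
  classical
  unfold non
  exact filter_subset_filter _ h

theorem ref_sum {V : Type} [DecidableEq V] (G : SimpleGraph V) (f C : ℝ) (a : ℕ) {b : ℕ}
    (P : Fin b → Finset V) (hf : 0 < f) (ha : 1 ≤ a) (ht : (tot G P : ℝ) ≤ C * a) :
    ∑ i, ((P i \ refP G f a P i).card : ℝ) ≤ C / f := by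
  have ha0 : (0 : ℝ) < a := by exact_mod_cast ha
  have h1 : ∑ i, ((P i \ refP G f a P i).card : ℝ) * (f * a) ≤ (tot G P : ℝ) := by
    unfold tot
    push_cast
    refine sum_le_sum (fun i _ => ?_)
    rw [sum_comm]
    have h2 : ∀ u ∈ P i \ refP G f a P i,
        f * a ≤ ∑ k ∈ univ.erase i, ((non G (P k) u).card : ℝ) := by
      intro u hu
      rw [mem_sdiff] at hu
      unfold refP at hu
      rw [mem_filter, not_and] at hu
      have h3 := hu.2 hu.1
      push Not at h3
      obtain ⟨k, hk, h4⟩ := h3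
      refine h4.le.trans ?_
      exact single_le_sum (f := fun k => ((non G (P k) u).card : ℝ))
        (fun _ _ => Nat.cast_nonneg _) (mem_erase.mpr ⟨hk, mem_univ _⟩)
    calc ((P i \ refP G f a P i).card : ℝ) * (f * a)
        = ∑ _u ∈ P i \ refP G f a P i, f * a := by rw [sum_const, nsmul_eq_mul]
      _ ≤ ∑ u ∈ P i \ refP G f a P i, ∑ k ∈ univ.erase i, ((non G (P k) u).card : ℝ) :=
          sum_le_sum h2
      _ ≤ ∑ u ∈ P i, ∑ k ∈ univ.erase i, ((non G (P k) u).card : ℝ) :=
          sum_le_sum_of_subset_of_nonneg sdiff_subset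
            (fun _ _ _ => sum_nonneg (fun _ _ => Nat.cast_nonneg _))
  rw [← sum_mul] at h1
  rw [le_div_iff₀ hf]
  have h2 := h1.trans ht
  nlinarith

theorem ref_card {V : Type} [DecidableEq V] (G : SimpleGraph V) (f C : ℝ) (a : ℕ) {b : ℕ}
    (P : Fin b → Finset V) (hf : 0 < f) (ha : 1 ≤ a) (ht : (tot G P : ℝ) ≤ C * a) (i : Fin b) :
    ((P i \ refP G f a P i).card : ℝ) ≤ C / f :=
  (single_le_sum (f := fun i => ((P i \ refP G f a P i).card : ℝ))
    (fun _ _ => Nat.cast_nonneg _) (mem_univ i)).trans (ref_sum G f C a P hf ha ht)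

/-- low cliques from transversals -/
theorem ref_low {V : Type} [DecidableEq V] (G : SimpleGraph V) (p : ℕ) (hTRV : TRVStmt)
    (P S : Fin (p + 3) → Finset V) (hP : Par G P) (hS : ∀ i, S i ⊆ P i) (z : V)
    (k₁ k₂ : Fin (p + 3)) (hk : k₁ ≠ k₂) (h1 : ∀ y ∈ S k₁, ¬ G.Adj z y)
    (h2 : ∀ y ∈ S k₂, ¬ G.Adj z y) : (trv G S).card ≤ nlow G p (un P) z := by
  classical
  have h3 := (hTRV G P hP).2 (fun L => if (nb G L z).card ≤ p + 1 then (1 : ℝ) else 0)
  have h4 : (nlow G p (un P) z : ℝ) =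
      ∑ L ∈ clq G (un P) (p + 3), (if (nb G L z).card ≤ p + 1 then (1 : ℝ) else 0) := by
    unfold nlow
    rw [card_filter]
    push_cast
    rfl
  have h5 : ((trv G S).card : ℝ) ≤
      ∑ g ∈ trv G P, (if (nb G (univ.image g) z).card ≤ p + 1 then (1 : ℝ) else 0) := by
    have h6 : trv G S ⊆ trv G P := by
      intro g hg
      unfold trv at hg ⊢
      rw [mem_filter, Fintype.mem_piFinset] at hg ⊢
      exact ⟨fun i => hS i (hg.1 i), hg.2⟩
    calc ((trv G S).card : ℝ) = ∑ _g ∈ trv G S, (1 : ℝ) := by simp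
      _ = ∑ g ∈ trv G S, (if (nb G (univ.image g) z).card ≤ p + 1 then (1 : ℝ) else 0) := by
          refine sum_congr rfl (fun g hg => ?_)
          rw [if_pos]
          unfold trv at hg
          rw [mem_filter, Fintype.mem_piFinset] at hg
          have h7 : nb G (univ.image g) z ⊆ ((univ.erase k₁).erase k₂).image g := by
            intro y hy
            rw [mem_nb, mem_image] at hy
            obtain ⟨⟨k, -, rfl⟩, hy⟩ := hy
            refine mem_image_of_mem _ ?_
            rw [mem_erase, mem_erase]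
            refine ⟨?_, ?_, mem_univ _⟩
            · rintro rfl
              exact h2 _ (hg.1 _) hy
            · rintro rfl
              exact h1 _ (hg.1 _) hy
          refine (card_le_card h7).trans (card_image_le.trans ?_)
          rw [card_erase_of_mem (by rw [mem_erase]; exact ⟨hk.symm, mem_univ _⟩),
            card_erase_of_mem (mem_univ _), card_univ, Fintype.card_fin]
          omega
      _ ≤ _ := sum_le_sum_of_subset_of_nonneg h6 (fun _ _ _ => by split_ifs <;> norm_num)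
  rw [← h3, ← h4] at h5
  exact_mod_cast h5

/-- the product of the sizes -/
theorem ref_prod (p : ℕ) (n : Fin (p + 3) → ℕ) (k₁ k₂ : Fin (p + 3)) (hk : k₁ ≠ k₂) (c d : ℝ)
    (hc : 0 ≤ c) (hd : 0 ≤ d) (h1 : c ≤ n k₁) (h2 : c ≤ n k₂)
    (h : ∀ i, i ≠ k₁ → i ≠ k₂ → d ≤ n i) : c ^ 2 * d ^ (p + 1) ≤ ((∏ i, n i : ℕ) : ℝ) := by
  push_cast
  rw [← mul_prod_erase univ (fun i => (n i : ℝ)) (mem_univ k₁),
    ← mul_prod_erase (univ.erase k₁) (fun i => (n i : ℝ))
      (mem_erase.mpr ⟨hk.symm, mem_univ k₂⟩), ← mul_assoc, sq]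
  refine mul_le_mul (mul_le_mul h1 h2 hc (Nat.cast_nonneg _)) ?_ (pow_nonneg hd _)
    (mul_nonneg (Nat.cast_nonneg _) (Nat.cast_nonneg _))
  have h3 : ((univ.erase k₁).erase k₂).card = p + 1 := by
    rw [card_erase_of_mem (by rw [mem_erase]; exact ⟨hk.symm, mem_univ _⟩),
      card_erase_of_mem (mem_univ _), card_univ, Fintype.card_fin]
    omega
  rw [← h3, ← prod_const]
  refine prod_le_prod (fun _ _ => hd) (fun i hi => ?_)
  rw [mem_erase, mem_erase] at hi
  exact h i hi.2.1 hi.1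

theorem ref_low_count {V : Type} [DecidableEq V] (hTRV : TRVStmt) (hBRK : BRKStmt)
    (G : SimpleGraph V) (p a : ℕ) (C : ℝ) (P : Fin (p + 3) → Finset V) (hP : Par G P)
    (ht : (tot G P : ℝ) ≤ C * a) (hhi : ∀ i, (P i).card ≤ 2 * a)
    (hlo : ∀ i, 3 / 4 * (a : ℝ) ≤ (P i).card) (z : V) (k₁ k₂ : Fin (p + 3)) (hk : k₁ ≠ k₂)
    (h1 : e1 p / 8 * a ≤ ((non G (P k₁) z).card : ℝ))
    (h2 : e1 p / 8 * a ≤ ((non G (P k₂) z).card : ℝ))
    (ha : C * 2 ^ (p + 1) ≤ cz p * a) :
    cz p * (a : ℝ) ^ (p + 3) ≤ nlow G p (un P) z := by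
  classical
  have he : 0 < e1 p := by
    unfold e1
    positivity
  obtain ⟨S, hS⟩ : ∃ S : Fin (p + 3) → Finset V, ∀ i, S i =
      if i = k₁ ∨ i = k₂ then non G (P i) z else P i := ⟨_, fun _ => rfl⟩
  have hSP : ∀ i, S i ⊆ P i := by
    intro i
    rw [hS]
    split_ifs
    · unfold non
      exact filter_subset _ _
    · exact Subset.refl _
  have hS1 : S k₁ = non G (P k₁) z := by rw [hS, if_pos (Or.inl rfl)]
  have hS2 : S k₂ = non G (P k₂) z := by rw [hS, if_pos (Or.inr rfl)]
  have h3 := ref_low G p hTRV P S hP hSP z k₁ k₂ hk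
    (by
      intro y hy
      rw [hS1] at hy
      unfold non at hy
      rw [mem_filter] at hy
      exact hy.2)
    (by
      intro y hy
      rw [hS2] at hy
      unfold non at hy
      rw [mem_filter] at hy
      exact hy.2)
  have h4 := (hBRK G p S).1 (2 * a) (fun i => (card_le_card (hSP i)).trans (hhi i))
  have h5 : (tot G S : ℝ) ≤ C * a := by
    have := (hBRK G p P).2.2 S hSP
    exact le_trans (by exact_mod_cast this) ht
  have h6 := ref_prod p (fun i => (S i).card) k₁ k₂ hk (e1 p / 8 * a) (3 / 4 * a) (by positivity)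
    (by positivity) (by rw [hS1]; exact h1) (by rw [hS2]; exact h2)
    (by
      intro i hi1 hi2
      rw [hS, if_neg (by tauto)]
      exact hlo i)
  have h7 : ((∏ i, (S i).card : ℕ) : ℝ) ≤
      (((trv G S).card + tot G S * (2 * a) ^ (p + 1) : ℕ) : ℝ) := by exact_mod_cast h4
  push_cast at h7 h6
  have h8 : (tot G S : ℝ) * (2 * (a : ℝ)) ^ (p + 1) ≤ C * a * (2 * (a : ℝ)) ^ (p + 1) :=
    mul_le_mul_of_nonneg_right h5 (by positivity)
  have h9 : C * a * (2 * (a : ℝ)) ^ (p + 1) ≤ cz p * (a : ℝ) ^ (p + 3) := by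
    have h10 : C * a * (2 * (a : ℝ)) ^ (p + 1) = C * 2 ^ (p + 1) * (a : ℝ) ^ (p + 2) := by
      rw [mul_pow]
      ring
    have h11 : cz p * (a : ℝ) ^ (p + 3) = cz p * a * (a : ℝ) ^ (p + 2) := by ring
    rw [h10, h11]
    exact mul_le_mul_of_nonneg_right ha (by positivity)
  have h12 : 2 * (cz p * (a : ℝ) ^ (p + 3)) ≤ (e1 p / 8 * a) ^ 2 * (3 / 4 * (a : ℝ)) ^ (p + 1) := by
    have h13 : (1 / 2 : ℝ) ^ (p + 1) ≤ (3 / 4 : ℝ) ^ (p + 1) :=
      pow_le_pow_left₀ (by norm_num) (by norm_num) _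
    have h14 : 2 * (cz p * (a : ℝ) ^ (p + 3)) =
        (e1 p / 8) ^ 2 * (1 / 2 : ℝ) ^ (p + 1) * (a : ℝ) ^ (p + 3) := by
      unfold cz
      rw [one_div, inv_pow]
      field_simp
      ring
    have h15 : (e1 p / 8 * a) ^ 2 * (3 / 4 * (a : ℝ)) ^ (p + 1) =
        (e1 p / 8) ^ 2 * (3 / 4 : ℝ) ^ (p + 1) * (a : ℝ) ^ (p + 3) := by
      rw [mul_pow, mul_pow]
      ring
    rw [h14, h15]
    refine mul_le_mul_of_nonneg_right (mul_le_mul_of_nonneg_left h13 (by positivity))
      (by positivity)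
  have h16 : ((trv G S).card : ℝ) ≤ nlow G p (un P) z := by exact_mod_cast h3
  have h17 : ∏ i, ((S i).card : ℝ) ≤ (trv G S).card + tot G S * (2 * (a : ℝ)) ^ (p + 1) := h7
  linarith

theorem REF_thm (hTRV : TRVStmt) (hBRK : BRKStmt) : REFStmt := by
  intro p f C hf hC
  have he1 : 0 < e1 p := by
    unfold e1
    positivity
  have hcz : 0 < cz p := by
    unfold cz
    positivity
  refine ⟨C + C / f, by positivity, fun e he he8 => ?_⟩
  refine ⟨⌈C / f / e⌉₊ + ⌈C / f / (e1 p / 8)⌉₊ + ⌈C * 2 ^ (p + 1) / cz p⌉₊ + 1, ?_⟩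
  intro a ha V _ G W P U hStr
  classical
  have ha1 : 1 ≤ a := by omega
  have haA : C / f ≤ e * a := by
    have h1 : C / f / e ≤ a := (Nat.le_ceil _).trans (Nat.cast_le.mpr (by omega))
    rw [div_le_iff₀ he] at h1
    linarith
  have haB : C / f ≤ e1 p / 8 * a := by
    have h1 : C / f / (e1 p / 8) ≤ a := (Nat.le_ceil _).trans (Nat.cast_le.mpr (by omega))
    rw [div_le_iff₀ (by positivity)] at h1
    linarith
  have haC : C * 2 ^ (p + 1) ≤ cz p * a := by
    have h1 : C * 2 ^ (p + 1) / cz p ≤ a := (Nat.le_ceil _).trans (Nat.cast_le.mpr (by omega))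
    rw [div_le_iff₀ hcz] at h1
    linarith
  have ha0 : (0 : ℝ) < a := by exact_mod_cast ha1
  obtain ⟨P', hP'⟩ : ∃ P' : Fin (p + 3) → Finset V, P' = refP G f a P := ⟨_, rfl⟩
  have hsub : ∀ i, P' i ⊆ P i := fun i => by rw [hP']; exact refP_sub G f a P i
  have hcard : ∀ i, ((P i \ P' i).card : ℝ) ≤ C / f := fun i => by
    rw [hP']
    exact ref_card G f C a P hf ha1 hStr.tot i
  have hpar : Par G P' :=
    ⟨fun i j hij => disjoint_of_subset_left (hsub i)
      (disjoint_of_subset_right (hsub j) (hStr.par.dis i j hij)),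
      fun i u hu w hw => hStr.par.ind i u (hsub i hu) w (hsub i hw)⟩
  have hlow : ∀ i, ((P i).card : ℝ) ≤ (P' i).card + C / f := by
    intro i
    have h1 : ((P i \ P' i).card : ℝ) + (P' i).card = (P i).card := by
      exact_mod_cast card_sdiff_add_card_eq_card (hsub i)
    have h2 := hcard i
    linarith
  have htot : (tot G P' : ℝ) ≤ C * a :=
    le_trans (by exact_mod_cast (hBRK G p P).2.2 P' hsub) hStr.tot
  refine ⟨P', U ∪ univ.biUnion (fun i => P i \ P' i), ?_, subset_union_left, ?_⟩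
  · refine ⟨hpar, ?_, ?_, ?_, ?_, ?_, htot, ?_⟩
    · intro i
      rw [disjoint_union_right]
      refine ⟨disjoint_of_subset_left (hsub i) (hStr.disU i), ?_⟩
      rw [disjoint_biUnion_right]
      intro j _
      by_cases hij : i = j
      · subst hij
        exact disjoint_sdiff
      · exact disjoint_of_subset_left (hsub i)
          (disjoint_of_subset_right sdiff_subset (hStr.par.dis i j hij))
    · intro u
      rw [hStr.cov u, mem_union, mem_biUnion]
      constructor
      · rintro (h | ⟨i, hi⟩)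
        · exact Or.inl (Or.inl h)
        · by_cases hu : u ∈ P' i
          · exact Or.inr ⟨i, hu⟩
          · exact Or.inl (Or.inr ⟨i, mem_univ _, mem_sdiff.mpr ⟨hi, hu⟩⟩)
      · rintro ((h | ⟨i, -, hi⟩) | ⟨i, hi⟩)
        · exact Or.inl h
        · exact Or.inr ⟨i, (mem_sdiff.mp hi).1⟩
        · exact Or.inr ⟨i, hsub i hi⟩
    · intro i
      have h1 := hStr.lo i
      have h2 := hlow i
      nlinarith
    · intro i
      have h1 := hStr.hi i
      have h2 : ((P' i).card : ℝ) ≤ (P i).card := by exact_mod_cast card_le_card (hsub i)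
      nlinarith
    · intro i u hu k hki
      have h1 : ((non G (P k) u).card : ℝ) ≤ f * a := by
        rw [hP'] at hu
        unfold refP at hu
        rw [mem_filter] at hu
        exact hu.2 k hki
      exact le_trans (by exact_mod_cast card_le_card (ref_non_mono G (hsub k) u)) h1
    · have h1 : ((U ∪ univ.biUnion (fun i => P i \ P' i)).card : ℝ) ≤
          U.card + ∑ i, ((P i \ P' i).card : ℝ) := by
        exact_mod_cast (card_union_le _ _).trans (Nat.add_le_add_left card_biUnion_le _)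
      have h2 := hStr.cU
      have h3 := ref_sum G f C a P hf ha1 hStr.tot
      rw [← hP'] at h3
      linarith
  · intro z hz
    obtain ⟨k₁, -, hk₁⟩ := hStr.exc z hz 0
    obtain ⟨k₂, hk21, hk₂⟩ := hStr.exc z hz k₁
    have hnon : ∀ k, ((non G (P k) z).card : ℝ) ≤ (non G (P' k) z).card + C / f := by
      intro k
      have h1 : non G (P k) z ⊆ non G (P' k) z ∪ (P k \ P' k) := by
        intro y hy
        unfold non at hy ⊢
        rw [mem_filter] at hy
        rw [mem_union, mem_filter, mem_sdiff]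
        by_cases h : y ∈ P' k
        · exact Or.inl ⟨h, hy.2⟩
        · exact Or.inr ⟨hy.1, h⟩
      have h2 : ((non G (P k) z).card : ℝ) ≤ (non G (P' k) z).card + ((P k \ P' k).card : ℝ) := by
        exact_mod_cast (card_le_card h1).trans (card_union_le _ _)
      have h3 := hcard k
      linarith
    refine ref_low_count hTRV hBRK G p a C P' hpar htot ?_ ?_ z k₁ k₂ hk21.symm ?_ ?_ haC
    · intro i
      have h1 := hStr.hi i
      have h2 : ((P' i).card : ℝ) ≤ (P i).card := by exact_mod_cast card_le_card (hsub i)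
      have h3 : ((P' i).card : ℝ) ≤ ((2 * a : ℕ) : ℝ) := by
        push_cast
        nlinarith
      exact_mod_cast h3
    · intro i
      have h1 := hStr.lo i
      have h2 := hlow i
      nlinarith
    · have h1 := hnon k₁
      linarith
    · have h1 := hnon k₂
      linarith

end Pool.HZ7
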